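import Mathlib

set_option autoImplicit false

/-!
Projectivities of direct powers (R. Schmidt's question, MP_196888_al).

If two groups `G`, `G'` embed in `P × Q` by `(p1, q1)`, `(p2, q2)`, and the bijection
`t : G' ≃ G` satisfies `p1 (t h) = p2 h`, `q1 (t h) = (q2 h)⁻¹`, and the commutators of `P`, `Q`
have coprime exponents, then `K ↦ {h | t ∘ h ∈ K}` is an isomorphism of subgroup lattices of
arbitrary powers.
-/

namespace Pool.Agent.Y35.PD

open scoped commutatorElement

/-- The data: a twisting bijection between two groups. -/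
structure Tw (G G' P Q : Type) [Group G] [Group G'] [Group P] [Group Q] where
  p1 : G →* P
  q1 : G →* Q
  p2 : G' →* P
  q2 : G' →* Q
  t : G' ≃ G
  inj : ∀ x : G, p1 x = 1 → q1 x = 1 → x = 1
  hp : ∀ h, p1 (t h) = p2 h
  hq : ∀ h, q1 (t h) = (q2 h)⁻¹
  m : ℕ
  n : ℕ
  cop : Nat.Coprime m n
  hm : ∀ x y : P, ⁅x, y⁆ ^ m = 1
  hn : ∀ x y : Q, ⁅x, y⁆ ^ n = 1

namespace Tw

variable {G G' P Q : Type} [Group G] [Group G'] [Group P] [Group Q]

/-- The inverse data. -/
def symm (T : Tw G G' P Q) : Tw G' G P Q where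
  p1 := T.p2
  q1 := T.q2
  p2 := T.p1
  q2 := T.q1
  t := T.t.symm
  inj := by
    intro x h1 h2
    have e1 : T.t x = T.t 1 := by
      have a1 : T.t x = 1 := T.inj _ (by rw [T.hp, h1]) (by rw [T.hq, h2, inv_one])
      have a2 : T.t 1 = 1 := T.inj _ (by rw [T.hp, map_one]) (by rw [T.hq, map_one, inv_one])
      rw [a1, a2]
    exact T.t.injective e1
  hp := by
    intro h
    rw [← T.hp, Equiv.apply_symm_apply]
  hq := by
    intro h
    have := T.hq (T.t.symm h)
    rw [Equiv.apply_symm_apply] at this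
    rw [this, inv_inv]
  m := T.m
  n := T.n
  cop := T.cop
  hm := T.hm
  hn := T.hn

/-- There is an exponent killing the commutators of `P` and fixing those of `Q`. -/
theorem exists_exp (T : Tw G G' P Q) : ∃ e : ℕ, (∀ x y : P, ⁅x, y⁆ ^ e = 1) ∧
    (∀ x y : Q, ⁅x, y⁆ ^ e = ⁅x, y⁆) := by
  obtain ⟨e, he1, he2⟩ := Nat.chineseRemainder T.cop 0 1
  refine ⟨e, ?_, ?_⟩
  · intro x y
    have : T.m ∣ e := (Nat.modEq_zero_iff_dvd).1 he1
    obtain ⟨c, rfl⟩ := this
    rw [pow_mul, T.hm, one_pow]
  · intro x y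
    have h := pow_eq_pow_mod e (T.hn x y)
    have h' := pow_eq_pow_mod 1 (T.hn x y)
    have he3 : e % T.n = 1 % T.n := he2
    rw [h, he3, ← h', pow_one]

/-- The main computation. -/
theorem mul_mem {ι : Type} (T : Tw G G' P Q) (K : Subgroup (ι → G)) {h h' : ι → G'}
    (h1 : (fun i => T.t (h i)) ∈ K) (h2 : (fun i => T.t (h' i)) ∈ K) :
    (fun i => T.t (h i * h' i)) ∈ K := by
  obtain ⟨e, he1, he2⟩ := T.exists_exp
  set k : ι → G := fun i => T.t (h i) with hk
  set k' : ι → G := fun i => T.t (h' i) with hk'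
  have hd : ⁅k'⁻¹, k⁻¹⁆ ∈ K := by
    rw [commutatorElement_def]
    exact K.mul_mem (K.mul_mem (K.mul_mem (K.inv_mem h2) (K.inv_mem h1))
      (K.inv_mem (K.inv_mem h2))) (K.inv_mem (K.inv_mem h1))
  have key : (fun i => T.t (h i * h' i)) = k * k' * ⁅k'⁻¹, k⁻¹⁆ ^ e := by
    funext i
    have hz : ∀ z w : G, T.p1 z = T.p1 w → T.q1 z = T.q1 w → z = w := by
      intro z w a b
      have := T.inj (z * w⁻¹) (by rw [map_mul, map_inv, a, mul_inv_cancel])
        (by rw [map_mul, map_inv, b, mul_inv_cancel])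
      exact mul_inv_eq_one.1 this
    apply hz
    · have e1 : (k * k' * ⁅k'⁻¹, k⁻¹⁆ ^ e) i = k i * k' i * ⁅(k' i)⁻¹, (k i)⁻¹⁆ ^ e := rfl
      rw [e1, T.hp, map_mul, map_mul, map_mul, map_pow, map_commutatorElement, he1, mul_one,
        hk, hk', T.hp, T.hp]
    · have e1 : (k * k' * ⁅k'⁻¹, k⁻¹⁆ ^ e) i = k i * k' i * ⁅(k' i)⁻¹, (k i)⁻¹⁆ ^ e := rfl
      rw [e1, T.hq, map_mul, map_mul, map_mul, map_pow, map_commutatorElement, he2,
        hk, hk', map_inv, map_inv, T.hq, T.hq, commutatorElement_def]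
      group
  rw [key]
  exact K.mul_mem (K.mul_mem h1 h2) (K.pow_mem hd e)

theorem t_one (T : Tw G G' P Q) : T.t 1 = 1 :=
  T.inj _ (by rw [T.hp, map_one]) (by rw [T.hq, map_one, inv_one])

theorem t_inv (T : Tw G G' P Q) (x : G') : T.t x⁻¹ = (T.t x)⁻¹ := by
  have hz : ∀ z w : G, T.p1 z = T.p1 w → T.q1 z = T.q1 w → z = w := by
    intro z w a b
    have := T.inj (z * w⁻¹) (by rw [map_mul, map_inv, a, mul_inv_cancel])
      (by rw [map_mul, map_inv, b, mul_inv_cancel])
    exact mul_inv_eq_one.1 this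
  apply hz
  · rw [T.hp, map_inv, map_inv, T.hp]
  · rw [T.hq, map_inv, map_inv, T.hq]

/-- Pull back a subgroup. -/
def pull {ι : Type} (T : Tw G G' P Q) (K : Subgroup (ι → G)) : Subgroup (ι → G') where
  carrier := {h | (fun i => T.t (h i)) ∈ K}
  mul_mem' := fun {a b} ha hb => T.mul_mem K ha hb
  one_mem' := by
    have : (fun i => T.t ((1 : ι → G') i)) = 1 := by
      funext i
      exact T.t_one
    change (fun i => T.t ((1 : ι → G') i)) ∈ K
    rw [this]
    exact K.one_mem
  inv_mem' := by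
    intro x hx
    have : (fun i => T.t (x⁻¹ i)) = (fun i => T.t (x i))⁻¹ := by
      funext i
      exact T.t_inv (x i)
    change (fun i => T.t (x⁻¹ i)) ∈ K
    rw [this]
    exact K.inv_mem hx

theorem mem_pull {ι : Type} (T : Tw G G' P Q) (K : Subgroup (ι → G)) (h : ι → G') :
    h ∈ T.pull K ↔ (fun i => T.t (h i)) ∈ K := Iff.rfl

/-- The isomorphism of subgroup lattices of powers. -/
def iso (ι : Type) (T : Tw G G' P Q) : Subgroup (ι → G) ≃o Subgroup (ι → G') where
  toFun := T.pull
  invFun := T.symm.pull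
  left_inv := by
    intro K
    ext x
    rw [mem_pull, mem_pull]
    have : (fun i => T.t (T.symm.t (x i))) = x := by
      funext i
      exact T.t.apply_symm_apply (x i)
    rw [this]
  right_inv := by
    intro K
    ext x
    rw [mem_pull, mem_pull]
    have : (fun i => T.symm.t (T.t (x i))) = x := by
      funext i
      exact T.t.symm_apply_apply (x i)
    rw [this]
  map_rel_iff' := by
    intro K L
    constructor
    · intro h x hx
      have h1 : (fun i => T.t.symm (x i)) ∈ T.pull K := by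
        rw [mem_pull]
        have : (fun i => T.t (T.t.symm (x i))) = x := by
          funext i
          exact T.t.apply_symm_apply (x i)
        rw [this]
        exact hx
      have h2 := h h1
      change _ ∈ T.pull L at h2
      rw [mem_pull] at h2
      have : (fun i => T.t (T.t.symm (x i))) = x := by
        funext i
        exact T.t.apply_symm_apply (x i)
      rw [this] at h2
      exact h2
    · intro h x hx
      exact h hx

theorem mem_range_single {ι : Type} [DecidableEq ι] (G : Type) [Group G] (i : ι) (x : ι → G) :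
    x ∈ (MonoidHom.mulSingle (fun _ : ι => G) i).range ↔ ∀ j, j ≠ i → x j = 1 := by
  constructor
  · rintro ⟨y, rfl⟩ j hj
    simp [MonoidHom.mulSingle_apply, Pi.mulSingle_eq_of_ne hj]
  · intro h
    refine ⟨x i, ?_⟩
    funext j
    by_cases hj : j = i
    · subst hj
      simp [MonoidHom.mulSingle_apply]
    · rw [h j hj]
      simp [MonoidHom.mulSingle_apply, Pi.mulSingle_eq_of_ne hj]

/-- Coordinate subgroups go to coordinate subgroups. -/
theorem iso_range {ι : Type} [DecidableEq ι] (T : Tw G G' P Q) (i : ι) :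
    T.iso ι (MonoidHom.mulSingle (fun _ : ι => G) i).range =
      (MonoidHom.mulSingle (fun _ : ι => G') i).range := by
  ext x
  change x ∈ T.pull _ ↔ _
  rw [mem_pull, mem_range_single, mem_range_single]
  constructor
  · intro h j hj
    have := h j hj
    rw [← T.t_one] at this
    exact T.t.injective this
  · intro h j hj
    change T.t (x j) = 1
    rw [h j hj, T.t_one]

theorem range_normal {ι : Type} [DecidableEq ι] (G : Type) [Group G] (i : ι) :
    ((MonoidHom.mulSingle (fun _ : ι => G) i).range).Normal := by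
  constructor
  intro n hn g
  rw [mem_range_single] at hn ⊢
  intro j hj
  simp [hn j hj]

theorem range_indep {ι : Type} [DecidableEq ι] (G : Type) [Group G] :
    iSupIndep (fun i : ι => (MonoidHom.mulSingle (fun _ : ι => G) i).range) := by
  intro i
  have hle : (⨆ j, ⨆ (_ : j ≠ i), (MonoidHom.mulSingle (fun _ : ι => G) j).range) ≤
      (Pi.evalMonoidHom (fun _ : ι => G) i).ker := by
    refine iSup_le fun j => iSup_le fun hj => ?_
    intro x hx
    rw [mem_range_single] at hx
    rw [MonoidHom.mem_ker]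
    exact hx i (fun h => hj h.symm)
  rw [disjoint_iff_inf_le]
  intro x hx
  obtain ⟨h1, h2⟩ := Subgroup.mem_inf.1 hx
  have h3 := hle h2
  rw [MonoidHom.mem_ker] at h3
  rw [mem_range_single] at h1
  rw [Subgroup.mem_bot]
  funext j
  by_cases hj : j = i
  · subst hj
    exact h3
  · exact h1 j hj

theorem range_sup (G : Type) [Group G] :
    (⨆ i : Fin (0 + 2), (MonoidHom.mulSingle (fun _ : Fin (0 + 2) => G) i).range) = ⊤ := by
  rw [eq_top_iff]
  intro x _
  have hx : x = MonoidHom.mulSingle (fun _ : Fin (0 + 2) => G) 0 (x 0) *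
      MonoidHom.mulSingle (fun _ : Fin (0 + 2) => G) 1 (x 1) := by
    funext j
    fin_cases j
    · simp [MonoidHom.mulSingle_apply]
    · simp [MonoidHom.mulSingle_apply]
  rw [hx]
  exact Subgroup.mul_mem _
    ((le_iSup (fun i : Fin (0 + 2) => (MonoidHom.mulSingle (fun _ : Fin (0 + 2) => G) i).range) 0)
      ⟨_, rfl⟩)
    ((le_iSup (fun i : Fin (0 + 2) => (MonoidHom.mulSingle (fun _ : Fin (0 + 2) => G) i).range) 1)
      ⟨_, rfl⟩)

end Tw

end Pool.Agent.Y35.PD
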