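import Mathlib
import Pool.Agent.Y35.PD.Twist

set_option autoImplicit false

/-!
The two groups `C_91 : C_3` (multiplication by 16 and by 9).
-/

namespace Pool.Agent.Y35.PD

open scoped commutatorElement

/-- The affine group of a commutative ring. -/
@[ext] structure Af (R : Type) [CommRing R] where
  a : R
  u : Rˣ

namespace Af
variable {R : Type} [CommRing R]

instance : Mul (Af R) := ⟨fun x y => ⟨x.a + (x.u : R) * y.a, x.u * y.u⟩⟩
instance : One (Af R) := ⟨⟨0, 1⟩⟩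
instance : Inv (Af R) := ⟨fun x => ⟨-(((x.u⁻¹ : Rˣ) : R) * x.a), x.u⁻¹⟩⟩

@[simp] theorem mul_a (x y : Af R) : (x * y).a = x.a + (x.u : R) * y.a := rfl
@[simp] theorem mul_u (x y : Af R) : (x * y).u = x.u * y.u := rfl
@[simp] theorem one_a : (1 : Af R).a = 0 := rfl
@[simp] theorem one_u : (1 : Af R).u = 1 := rfl
@[simp] theorem inv_a (x : Af R) : (x⁻¹).a = -(((x.u⁻¹ : Rˣ) : R) * x.a) := rfl
@[simp] theorem inv_u (x : Af R) : (x⁻¹).u = x.u⁻¹ := rfl

instance : Group (Af R) := Group.ofLeftAxioms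
  (by intro x y z; ext <;> simp [mul_assoc, mul_add, add_assoc])
  (by intro x; ext <;> simp)
  (by intro x; ext <;> simp)

theorem pow_u (x : Af R) (k : ℕ) : (x ^ k).u = x.u ^ k := by
  induction k with
  | zero => simp
  | succ k ih => rw [pow_succ, mul_u, ih, pow_succ]

theorem pow_a (x : Af R) (hx : x.u = 1) (k : ℕ) : (x ^ k).a = (k : R) * x.a := by
  induction k with
  | zero => simp
  | succ k ih =>
    rw [pow_succ, mul_a, ih, pow_u, hx]
    push_cast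
    simp
    ring

theorem comm_pow (k : ℕ) (hk : (k : R) = 0) (x y : Af R) : ⁅x, y⁆ ^ k = 1 := by
  have h1 : (⁅x, y⁆).u = 1 := by
    rw [commutatorElement_def]
    simp
  ext
  · rw [pow_a _ h1, hk, zero_mul, one_a]
  · rw [pow_u, h1, one_pow]; rfl

end Af

/-- The unit 2 of `ZMod 7`, of order 3. -/
def u0 : (ZMod 7)ˣ := ⟨2, 4, by decide, by decide⟩
/-- The unit 3 of `ZMod 13`, of order 3. -/
def v0 : (ZMod 13)ˣ := ⟨3, 9, by decide, by decide⟩

theorem u0_pow : u0 ^ 3 = 1 := by decide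
theorem v0_pow : v0 ^ 3 = 1 := by decide

theorem u0_order : orderOf u0 = 3 :=
  orderOf_eq_prime u0_pow (by decide)

theorem v0_order : orderOf v0 = 3 :=
  orderOf_eq_prime v0_pow (by decide)

/-- `C_91 : C_3`, a generator of `C_3` multiplying by 2 mod 7 and 3 mod 13, i.e. by 16 mod 91. -/
def G1 : Subgroup (Af (ZMod 7) × Af (ZMod 13)) where
  carrier := {x | ∃ k : ℤ, x.1.u = u0 ^ k ∧ x.2.u = v0 ^ k}
  mul_mem' := by
    rintro x y ⟨k, h1, h2⟩ ⟨l, h3, h4⟩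
    exact ⟨k + l, by simp [h1, h3, zpow_add], by simp [h2, h4, zpow_add]⟩
  one_mem' := ⟨0, by simp, by simp⟩
  inv_mem' := by
    rintro x ⟨k, h1, h2⟩
    exact ⟨-k, by simp [h1], by simp [h2]⟩

/-- `C_91 : C_3`, a generator of `C_3` multiplying by 2 mod 7 and 9 mod 13, i.e. by 9 mod 91. -/
def G2 : Subgroup (Af (ZMod 7) × Af (ZMod 13)) where
  carrier := {x | ∃ k : ℤ, x.1.u = u0 ^ k ∧ x.2.u = v0 ^ (-k)}
  mul_mem' := by
    rintro x y ⟨k, h1, h2⟩ ⟨l, h3, h4⟩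
    exact ⟨k + l, by simp [h1, h3, zpow_add], by simp [h2, h4, zpow_add, mul_comm]⟩
  one_mem' := ⟨0, by simp, by simp⟩
  inv_mem' := by
    rintro x ⟨k, h1, h2⟩
    exact ⟨-k, by simp [h1], by simp [h2]⟩

theorem mem_G1 (x : Af (ZMod 7) × Af (ZMod 13)) :
    x ∈ G1 ↔ ∃ k : ℤ, x.1.u = u0 ^ k ∧ x.2.u = v0 ^ k := Iff.rfl

theorem mem_G2 (x : Af (ZMod 7) × Af (ZMod 13)) :
    x ∈ G2 ↔ ∃ k : ℤ, x.1.u = u0 ^ k ∧ x.2.u = v0 ^ (-k) := Iff.rfl

theorem twist_mem (x : Af (ZMod 7) × Af (ZMod 13)) (hx : x ∈ G2) : (x.1, x.2⁻¹) ∈ G1 := by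
  obtain ⟨k, h1, h2⟩ := hx
  exact ⟨k, h1, by simp [h2]⟩

theorem twist_mem' (x : Af (ZMod 7) × Af (ZMod 13)) (hx : x ∈ G1) : (x.1, x.2⁻¹) ∈ G2 := by
  obtain ⟨k, h1, h2⟩ := hx
  exact ⟨k, h1, by simp [h2]⟩

/-- The twisting data. -/
def tw : Tw G1 G2 (Af (ZMod 7)) (Af (ZMod 13)) where
  p1 := (MonoidHom.fst _ _).comp G1.subtype
  q1 := (MonoidHom.snd _ _).comp G1.subtype
  p2 := (MonoidHom.fst _ _).comp G2.subtype
  q2 := (MonoidHom.snd _ _).comp G2.subtype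
  t :=
    { toFun := fun x => ⟨(x.1.1, x.1.2⁻¹), twist_mem _ x.2⟩
      invFun := fun x => ⟨(x.1.1, x.1.2⁻¹), twist_mem' _ x.2⟩
      left_inv := by
        intro x
        ext1
        simp
      right_inv := by
        intro x
        ext1
        simp }
  inj := by
    intro x h1 h2
    ext1
    exact Prod.ext h1 h2
  hp := fun h => rfl
  hq := fun h => rfl
  m := 7
  n := 13
  cop := by decide
  hm := Af.comm_pow 7 (by decide)
  hn := Af.comm_pow 13 (by decide)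

/-- The translation by 1. -/
def al : G1 := ⟨(⟨1, 1⟩, ⟨1, 1⟩), ⟨0, by simp, by simp⟩⟩
/-- The generator of `C_3`. -/
def xi : G1 := ⟨(⟨0, u0⟩, ⟨0, v0⟩), ⟨1, by simp, by simp⟩⟩

theorem G1_prop : al ^ 91 = 1 ∧ al ^ 7 ≠ 1 ∧ al ^ 13 ≠ 1 ∧ xi * al = al ^ 16 * xi := by
  have e1 : ∀ k : ℕ, ((al ^ k : G1) : Af (ZMod 7) × Af (ZMod 13)) =
      (⟨(k : ZMod 7), 1⟩, ⟨(k : ZMod 13), 1⟩) := by
    intro k
    have h1 : ((⟨1, 1⟩ : Af (ZMod 7)) ^ k) = ⟨(k : ZMod 7), 1⟩ := by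
      ext
      · rw [Af.pow_a _ rfl, mul_one]
      · rw [Af.pow_u]; simp
    have h2 : ((⟨1, 1⟩ : Af (ZMod 13)) ^ k) = ⟨(k : ZMod 13), 1⟩ := by
      ext
      · rw [Af.pow_a _ rfl, mul_one]
      · rw [Af.pow_u]; simp
    have h3 : ((al ^ k : G1) : Af (ZMod 7) × Af (ZMod 13)) =
        ((⟨1, 1⟩ : Af (ZMod 7)) ^ k, (⟨1, 1⟩ : Af (ZMod 13)) ^ k) := rfl
    rw [h3, h1, h2]
  refine ⟨?_, ?_, ?_, ?_⟩
  · apply Subtype.ext
    rw [e1]
    have a : ((91 : ℕ) : ZMod 7) = 0 := by decide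
    have b : ((91 : ℕ) : ZMod 13) = 0 := by decide
    rw [a, b]
    rfl
  · intro h
    have := congrArg (fun z : G1 => (z : Af (ZMod 7) × Af (ZMod 13)).2.a) h
    simp only [e1] at this
    revert this
    change ((7 : ℕ) : ZMod 13) ≠ 0
    decide
  · intro h
    have := congrArg (fun z : G1 => (z : Af (ZMod 7) × Af (ZMod 13)).1.a) h
    simp only [e1] at this
    revert this
    change ((13 : ℕ) : ZMod 7) ≠ 0
    decide
  · apply Subtype.ext
    rw [Subgroup.coe_mul, Subgroup.coe_mul, e1]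
    ext
    · change (0 : ZMod 7) + 2 * 1 = ((16 : ℕ) : ZMod 7) + 1 * 0
      decide
    · change ((u0 * 1 : (ZMod 7)ˣ) : ZMod 7) = ((1 * u0 : (ZMod 7)ˣ) : ZMod 7)
      simp
    · change (0 : ZMod 13) + 3 * 1 = ((16 : ℕ) : ZMod 13) + 1 * 0
      decide
    · change ((v0 * 1 : (ZMod 13)ˣ) : ZMod 13) = ((1 * v0 : (ZMod 13)ˣ) : ZMod 13)
      simp

theorem G2_prop (α ξ : G2) (h1 : α ^ 91 = 1) (h2 : α ^ 7 ≠ 1) (h3 : α ^ 13 ≠ 1)
    (h4 : ξ * α = α ^ 16 * ξ) : False := by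
  obtain ⟨⟨x, y⟩, k, hx, hy⟩ := α
  obtain ⟨⟨z, w⟩, l, hz, hw⟩ := ξ
  simp only at hx hy hz hw
  have f1 : ∀ n : ℕ, ((⟨(x, y), ⟨k, hx, hy⟩⟩ : G2) ^ n : G2) =
      (⟨(x ^ n, y ^ n), by
        have := (((⟨(x, y), ⟨k, hx, hy⟩⟩ : G2) ^ n : G2)).2
        exact this⟩ : G2) := by
    intro n
    rfl
  -- the linear parts of `α` are trivial
  have hxu : x.u = 1 := by
    have a1 : x ^ 91 = 1 := congrArg (fun t : G2 => (t : Af (ZMod 7) × Af (ZMod 13)).1) h1
    have a2 : x.u ^ 91 = 1 := by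
      rw [← Af.pow_u, a1]; rfl
    have a3 : x.u ^ 3 = 1 := by
      rw [hx, ← zpow_natCast, ← zpow_mul, mul_comm, zpow_mul]
      have : u0 ^ ((3 : ℕ) : ℤ) = 1 := by rw [zpow_natCast]; exact u0_pow
      rw [this, one_zpow]
    calc x.u = x.u ^ 91 := by
          rw [show 91 = 3 * 30 + 1 from rfl, pow_add, pow_mul, a3, one_pow, one_mul, pow_one]
      _ = 1 := a2
  have hyu : y.u = 1 := by
    have a1 : y ^ 91 = 1 := congrArg (fun t : G2 => (t : Af (ZMod 7) × Af (ZMod 13)).2) h1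
    have a2 : y.u ^ 91 = 1 := by
      rw [← Af.pow_u, a1]; rfl
    have a3 : y.u ^ 3 = 1 := by
      rw [hy, ← zpow_natCast, ← zpow_mul, mul_comm, zpow_mul]
      have : v0 ^ ((3 : ℕ) : ℤ) = 1 := by rw [zpow_natCast]; exact v0_pow
      rw [this, one_zpow]
    calc y.u = y.u ^ 91 := by
          rw [show 91 = 3 * 30 + 1 from rfl, pow_add, pow_mul, a3, one_pow, one_mul, pow_one]
      _ = 1 := a2
  have hya : y.a ≠ 0 := by
    intro h
    apply h2
    rw [f1]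
    apply Subtype.ext
    change (x ^ 7, y ^ 7) = (1, 1)
    have b1 : x ^ 7 = 1 := by
      ext
      · rw [Af.pow_a _ hxu]
        have : ((7 : ℕ) : ZMod 7) = 0 := by decide
        rw [this, zero_mul]; rfl
      · rw [Af.pow_u, hxu, one_pow]; rfl
    have b2 : y ^ 7 = 1 := by
      ext
      · rw [Af.pow_a _ hyu, h, mul_zero]; rfl
      · rw [Af.pow_u, hyu, one_pow]; rfl
    rw [b1, b2]
  have hxa : x.a ≠ 0 := by
    intro h
    apply h3
    rw [f1]
    apply Subtype.ext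
    change (x ^ 13, y ^ 13) = (1, 1)
    have b1 : y ^ 13 = 1 := by
      ext
      · rw [Af.pow_a _ hyu]
        have : ((13 : ℕ) : ZMod 13) = 0 := by decide
        rw [this, zero_mul]; rfl
      · rw [Af.pow_u, hyu, one_pow]; rfl
    have b2 : x ^ 13 = 1 := by
      ext
      · rw [Af.pow_a _ hxu, h, mul_zero]; rfl
      · rw [Af.pow_u, hxu, one_pow]; rfl
    rw [b1, b2]
  have c1 : z * x = x ^ 16 * z :=
    congrArg (fun t : G2 => (t : Af (ZMod 7) × Af (ZMod 13)).1) h4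
  have c2 : w * y = y ^ 16 * w :=
    congrArg (fun t : G2 => (t : Af (ZMod 7) × Af (ZMod 13)).2) h4
  have : Fact (Nat.Prime 7) := ⟨by norm_num⟩
  have : Fact (Nat.Prime 13) := ⟨by norm_num⟩
  have d1 : (z.u : ZMod 7) = (u0 : ZMod 7) := by
    have := congrArg Af.a c1
    rw [Af.mul_a, Af.mul_a, Af.pow_a _ hxu, Af.pow_u, hxu, one_pow] at this
    have e : (z.u : ZMod 7) * x.a = ((16 : ℕ) : ZMod 7) * x.a := by
      rw [Units.val_one, one_mul] at this
      linear_combination this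
    exact mul_right_cancel₀ hxa e
  have d2 : (w.u : ZMod 13) = (v0 : ZMod 13) := by
    have := congrArg Af.a c2
    rw [Af.mul_a, Af.mul_a, Af.pow_a _ hyu, Af.pow_u, hyu, one_pow] at this
    have e : (w.u : ZMod 13) * y.a = ((16 : ℕ) : ZMod 13) * y.a := by
      rw [Units.val_one, one_mul] at this
      linear_combination this
    exact mul_right_cancel₀ hya e
  have d3 : u0 ^ l = u0 := by rw [← hz]; exact Units.ext d1
  have d4 : v0 ^ (-l) = v0 := by rw [← hw]; exact Units.ext d2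
  have g1 : (3 : ℤ) ∣ l - 1 := by
    have : u0 ^ (l - 1) = 1 := by rw [zpow_sub_one, d3, mul_inv_cancel]
    have h := orderOf_dvd_iff_zpow_eq_one.2 this
    rw [u0_order] at h
    exact_mod_cast h
  have g2 : (3 : ℤ) ∣ -l - 1 := by
    have : v0 ^ (-l - 1) = 1 := by rw [zpow_sub_one, d4, mul_inv_cancel]
    have h := orderOf_dvd_iff_zpow_eq_one.2 this
    rw [v0_order] at h
    exact_mod_cast h
  omega

/-- The two groups are not isomorphic. -/
theorem not_iso : ¬ Nonempty (G2 ≃* G1) := by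
  rintro ⟨f⟩
  obtain ⟨h1, h2, h3, h4⟩ := G1_prop
  refine G2_prop (f.symm al) (f.symm xi) ?_ ?_ ?_ ?_
  · rw [← map_pow, h1, map_one]
  · intro h
    apply h2
    rw [← map_pow] at h
    exact (MulEquiv.map_eq_one_iff f.symm).1 h
  · intro h
    apply h3
    rw [← map_pow] at h
    exact (MulEquiv.map_eq_one_iff f.symm).1 h
  · rw [← map_mul, h4, map_mul, map_pow]

end Pool.Agent.Y35.PD
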